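import Mathlib

set_option autoImplicit false

open Filter Topology BoundedContinuousFunction Set

namespace Pool.Agent.Results.MP_155d71_an.SeparateActionFails

universe u

/-- A semitopological semigroup: a semigroup with a Hausdorff topology in which multiplication is
separately continuous. -/
class SemitopSemigroup (S : Type u) [Semigroup S] [TopologicalSpace S] : Prop where
  hausdorff : T2Space S
  continuous_left : ∀ s : S, Continuous fun t : S => s * t
  continuous_right : ∀ t : S, Continuous fun s : S => s * t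

section LUC

variable {S : Type u} [Semigroup S] [TopologicalSpace S] [SemitopSemigroup S]

/-- The left translate `(ℓ_s f)(t) = f (s t)` of a bounded continuous function. -/
noncomputable def ltrans (s : S) (f : S →ᵇ ℂ) : S →ᵇ ℂ :=
  f.compContinuous ⟨fun t => s * t, SemitopSemigroup.continuous_left s⟩

lemma ltrans_apply (s : S) (f : S →ᵇ ℂ) (t : S) : ltrans s f t = f (s * t) := rfl

/-- `f` is left uniformly continuous: `s ↦ ℓ_s f` is norm continuous. -/
def IsLUC (f : S →ᵇ ℂ) : Prop := Continuous fun s : S => ltrans s f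

lemma IsLUC.mul {f g : S →ᵇ ℂ} (hf : IsLUC f) (hg : IsLUC g) : IsLUC (f * g) := by
  have h : (fun s : S => ltrans s (f * g)) = fun s => ltrans s f * ltrans s g := by
    ext s t; rfl
  rw [IsLUC, h]
  exact Continuous.mul hf hg

lemma IsLUC.add {f g : S →ᵇ ℂ} (hf : IsLUC f) (hg : IsLUC g) : IsLUC (f + g) := by
  have h : (fun s : S => ltrans s (f + g)) = fun s => ltrans s f + ltrans s g := by
    ext s t; rfl
  rw [IsLUC, h]
  exact Continuous.add hf hg

lemma isLUC_algebraMap (r : ℂ) : IsLUC (algebraMap ℂ (S →ᵇ ℂ) r) := by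
  have h : (fun s : S => ltrans s (algebraMap ℂ (S →ᵇ ℂ) r)) = fun _ => algebraMap ℂ _ r := by
    ext s t; rfl
  rw [IsLUC, h]
  exact continuous_const

lemma IsLUC.ltrans {f : S →ᵇ ℂ} (hf : IsLUC f) (s : S) : IsLUC (ltrans s f) := by
  have h : (fun u : S => SeparateActionFails.ltrans u (SeparateActionFails.ltrans s f)) =
      fun u => SeparateActionFails.ltrans (s * u) f := by
    ext u t
    simp only [ltrans_apply, mul_assoc]
  rw [IsLUC, h]
  exact (show Continuous fun u : S => SeparateActionFails.ltrans u f from hf).comp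
    (SemitopSemigroup.continuous_left s)

variable (S) in
/-- `LUC(S)`: the algebra of the bounded continuous functions `f` such that `s ↦ ℓ_s f` is norm
continuous. -/
noncomputable def LUC : Subalgebra ℂ (S →ᵇ ℂ) where
  carrier := {f | IsLUC f}
  mul_mem' := IsLUC.mul
  add_mem' := IsLUC.add
  algebraMap_mem' := isLUC_algebraMap

lemma mem_LUC {f : S →ᵇ ℂ} : f ∈ LUC S ↔ Continuous fun s : S => ltrans s f := Iff.rfl

/-- The left translation `ℓ_s` on `LUC(S)`. -/
noncomputable def ltransLUC (s : S) (f : LUC S) : LUC S := ⟨ltrans s f, IsLUC.ltrans f.2 s⟩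

/-- `m` is a multiplicative left invariant mean on `LUC(S)`: a linear functional with
`m 1 = ‖m‖ = 1` (that is, `m 1 = 1` and `|m f| ≤ ‖f‖`) which is multiplicative and left invariant. -/
structure IsMultiplicativeLIM (m : LUC S → ℂ) : Prop where
  add : ∀ f g : LUC S, m (f + g) = m f + m g
  smul : ∀ (a : ℂ) (f : LUC S), m (a • f) = a * m f
  one : m 1 = 1
  bound : ∀ f : LUC S, ‖m f‖ ≤ ‖f‖
  mul : ∀ f g : LUC S, m (f * g) = m f * m g
  left_invariant : ∀ (s : S) (f : LUC S), m (ltransLUC s f) = m f

variable (S) in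
/-- `S` is extremely left amenable: `LUC(S)` carries a multiplicative left invariant mean. -/
def ExtremelyLeftAmenable : Prop := ∃ m : LUC S → ℂ, IsMultiplicativeLIM m

end LUC

section Rep

/-- The space `E` with its weak topology. -/
def Weak (E : Type u) [NormedAddCommGroup E] [NormedSpace ℝ E] : Type u := WeakSpace ℝ E

variable {E : Type u} [NormedAddCommGroup E] [NormedSpace ℝ E]

noncomputable instance : TopologicalSpace (Weak E) :=
  inferInstanceAs (TopologicalSpace (WeakSpace ℝ E))

instance : T2Space (Weak E) := inferInstanceAs (T2Space (WeakSpace ℝ E))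

/-- The identity map from `E` to `E` with its weak topology. -/
noncomputable def toW : E ≃ Weak E := (toWeakSpace ℝ E).toEquiv

lemma weakly_tendsto_iff (x : ℕ → E) :
    Tendsto (fun n => toW (x n)) atTop (𝓝 (toW 0)) ↔
      ∀ φ : StrongDual ℝ E, Tendsto (fun n => φ (x n)) atTop (𝓝 0) := by
  have hinj : Function.Injective (topDualPairing ℝ E).flip := by
    intro a b h
    by_contra hne
    obtain ⟨f, hf⟩ := SeparatingDual.exists_separating_of_ne (R := ℝ) hne
    exact hf (DFunLike.congr_fun h f)
  have h := WeakBilin.tendsto_iff_forall_eval_tendsto (B := (topDualPairing ℝ E).flip)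
    (l := atTop) (f := fun n => (toWeakSpace ℝ E (x n) : WeakSpace ℝ E)) (x := (0 : WeakSpace ℝ E)) hinj
  refine Iff.trans (show _ ↔ _ from Iff.rfl) (h.trans (forall_congr' fun φ => ?_))
  have e1 : ((topDualPairing ℝ E).flip (0 : WeakSpace ℝ E)) φ = 0 := map_zero φ
  rw [e1]
  rfl

/-- The norm distance of two points of `E` (regarded as points of `E` with the weak topology). -/
noncomputable def ndist (x y : Weak E) : ℝ := ‖toW.symm x - toW.symm y‖

/-- `T` is a weakly continuous, norm nonexpansive representation of the semitopological semigroup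
`S` on the subset `C` of the Banach space `E`; here `C` carries the weak topology of `E`. -/
structure IsRepresentation {S : Type u} [Semigroup S] [TopologicalSpace S]
    (C : Set (Weak E)) (T : S → C → C) : Prop where
  mul : ∀ (s t : S) (x : C), T (s * t) x = T s (T t x)
  nonexpansive : ∀ (s : S) (x y : C), ndist (T s x : Weak E) (T s y) ≤ ndist (x : Weak E) y
  continuous_right : ∀ s : S, Continuous (T s)
  continuous_left : ∀ x : C, Continuous fun s : S => T s x

end Rep

/-- The statement of the question for the Banach space `E` (and all semitopological semigroups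
living in the universe of `E`): whenever `S` is an extremely left amenable semitopological
semigroup, `C` is a weakly closed subset of `E` and `T` is a weakly continuous, norm nonexpansive
representation of `S` on `C` for which some orbit is relatively weakly compact, there is a fixed
point for `S` in `C`. (The weak topology of a complex Banach space is that of the underlying real
space, so that it suffices to consider real spaces.) -/
def FixedPointStatement (E : Type u) [NormedAddCommGroup E] [NormedSpace ℝ E] : Prop :=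
  ∀ (S : Type u) [Semigroup S] [TopologicalSpace S] [SemitopSemigroup S],
    ExtremelyLeftAmenable S → ∀ (C : Set (Weak E)) (T : S → C → C), IsClosed C →
      IsRepresentation C T →
      (∃ c : C, IsCompact (closure (range fun s : S => (T s c : Weak E)))) →
      ∃ z : C, ∀ s : S, T s z = z

section Construction

variable {E : Type u} [NormedAddCommGroup E] [NormedSpace ℝ E]

/-- The semigroup of all weakly continuous, norm nonexpansive self-maps of `C`. -/
def NE (C : Set (Weak E)) : Type u :=
  {g : C → C // Continuous g ∧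
    ∀ x y : C, ndist (g x : Weak E) (g y) ≤ ndist (x : Weak E) y}

instance (C : Set (Weak E)) : Semigroup (NE C) where
  mul f g := ⟨f.1 ∘ g.1, f.2.1.comp g.2.1, fun _ _ => (f.2.2 _ _).trans (g.2.2 _ _)⟩
  mul_assoc _ _ _ := rfl

/-- The topology of pointwise weak convergence. -/
noncomputable instance (C : Set (Weak E)) : TopologicalSpace (NE C) :=
  TopologicalSpace.induced Subtype.val inferInstance

lemma NE.mul_apply {C : Set (Weak E)} (f g : NE C) (x : C) : (f * g).1 x = f.1 (g.1 x) := rfl

lemma NE.continuous_eval {C : Set (Weak E)} (x : C) : Continuous fun f : NE C => f.1 x :=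
  (continuous_apply x).comp continuous_induced_dom

lemma NE.continuous_iff {C : Set (Weak E)} {A : Type*} [TopologicalSpace A] (F : A → NE C) :
    Continuous F ↔ ∀ x, Continuous fun a => (F a).1 x := by
  rw [continuous_induced_rng, continuous_pi_iff]
  rfl

lemma NE.tendsto_iff {C : Set (Weak E)} {A : Type*} {l : Filter A} (F : A → NE C) (g : NE C) :
    Tendsto F l (𝓝 g) ↔ ∀ x, Tendsto (fun a => (F a).1 x) l (𝓝 (g.1 x)) := by
  rw [nhds_induced, tendsto_comap_iff, tendsto_pi_nhds]
  rfl

instance (C : Set (Weak E)) : SemitopSemigroup (NE C) where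
  hausdorff := by
    have : Function.Injective (Subtype.val : NE C → (C → C)) := Subtype.val_injective
    exact (this.isEmbedding_induced).t2Space
  continuous_left s := by
    rw [NE.continuous_iff]
    intro x
    exact s.2.1.comp (NE.continuous_eval x)
  continuous_right t := by
    rw [NE.continuous_iff]
    intro x
    exact NE.continuous_eval (t.1 x)

/-- The constant map with value `p`. -/
noncomputable def cst {C : Set (Weak E)} (p : C) : NE C :=
  ⟨fun _ => p, continuous_const, fun x y => by simp [ndist]⟩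

variable {e : ℕ → E}

/-- The countable weakly compact set `{0} ∪ {e n} ∪ {e n / 2}`. -/
noncomputable def K (e : ℕ → E) :
    Set (Weak E) :=
  insert (toW 0) (range fun n => toW (e n)) ∪
    insert (toW 0) (range fun n => toW ((2⁻¹ : ℝ) • e n))

/-- Data: a weakly null sequence of unit vectors with mutual distances at least `1/2`. -/
structure Good (e : ℕ → E) : Prop where
  null : Tendsto (fun n => toW (e n)) atTop (𝓝 (toW 0))
  norm : ∀ n, ‖e n‖ = 1
  sep : ∀ i j, i ≠ j → 1 / 2 ≤ ‖e i - e j‖

lemma norm_half (x : E) : ‖(2⁻¹ : ℝ) • x‖ = ‖x‖ / 2 := by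
  rw [norm_smul, norm_inv, RCLike.norm_ofNat]
  ring

lemma Good.half (h : Good e) :
    Tendsto (fun n => toW ((2⁻¹ : ℝ) • e n)) atTop (𝓝 (toW 0)) := by
  have h1 := h.null
  rw [weakly_tendsto_iff] at h1 ⊢
  intro φ
  simpa using (h1 φ).const_mul (2⁻¹ : ℝ)

lemma Good.isCompact (h : Good e) : IsCompact (K e) :=
  h.null.isCompact_insert_range.union h.half.isCompact_insert_range

lemma e_mem (i : ℕ) : toW (e i) ∈ K e := Or.inl (Or.inr ⟨i, rfl⟩)

lemma half_mem (i : ℕ) : toW ((2⁻¹ : ℝ) • e i) ∈ K e := Or.inr (Or.inr ⟨i, rfl⟩)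

lemma zero_mem : (toW 0 : Weak E) ∈ K e := Or.inl (Or.inl rfl)

/-- every other point of `K` is at distance at least `1/2` from `e i` -/
lemma Good.dist_ge (h : Good e) (i : ℕ) (x : Weak E) (hx : x ∈ K e)
    (hne : x ≠ toW (e i)) : 1 / 2 ≤ ndist (toW (e i)) x := by
  have hi := h.norm i
  rcases hx with (rfl | ⟨n, rfl⟩) | (rfl | ⟨n, rfl⟩)
  · simp only [ndist, Equiv.symm_apply_apply, sub_zero]; linarith
  · have hn : i ≠ n := by rintro rfl; exact hne rfl
    simpa [ndist] using h.sep i n hn
  · simp only [ndist, Equiv.symm_apply_apply, sub_zero]; linarith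
  · simp only [ndist, Equiv.symm_apply_apply]
    have h1 := norm_sub_norm_le (e i) ((2⁻¹ : ℝ) • e n)
    rw [norm_half, h.norm, h.norm] at h1
    linarith

lemma Good.injective (h : Good e) : Function.Injective e := by
  intro i j hij
  by_contra hne
  have := h.sep i j hne
  rw [hij, sub_self, norm_zero] at this
  norm_num at this

/-- The point `e i` is isolated in `K`. -/
lemma Good.isClopen (h : Good e) (i : ℕ) :
    IsClopen {x : K e | (x : Weak E) = toW (e i)} := by
  constructor
  · exact isClosed_eq continuous_subtype_val continuous_const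
  · rw [← isClosed_compl_iff]
    have h1 : Tendsto (fun n => if n = i then (toW 0 : Weak E) else toW (e n)) atTop
        (𝓝 (toW 0)) := by
      refine h.null.congr' ?_
      filter_upwards [eventually_gt_atTop i] with n hn
      rw [if_neg hn.ne']
    have h2 : IsCompact (insert (toW 0) (range fun n => if n = i then (toW 0 : Weak E) else
        toW (e n)) ∪ insert (toW 0) (range fun n => toW ((2⁻¹ : ℝ) • e n))) :=
      h1.isCompact_insert_range.union h.half.isCompact_insert_range
    have h3 : {x : K e | (x : Weak E) = toW (e i)}ᶜ =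
        Subtype.val ⁻¹' (insert (toW 0) (range fun n => if n = i then (toW 0 : Weak E) else
        toW (e n)) ∪ insert (toW 0) (range fun n => toW ((2⁻¹ : ℝ) • e n))) := by
      ext ⟨x, hx⟩
      simp only [mem_compl_iff, mem_ofPred_eq, mem_preimage]
      constructor
      · intro hne
        rcases hx with (rfl | ⟨n, rfl⟩) | hx
        · exact Or.inl (Or.inl rfl)
        · have hn : n ≠ i := by rintro rfl; exact hne rfl
          exact Or.inl (Or.inr ⟨n, if_neg hn⟩)
        · exact Or.inr hx
      · intro hx' heq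
        have hne : e i ≠ 0 := by
          intro h0
          have := h.norm i
          rw [h0, norm_zero] at this
          norm_num at this
        have hne' : toW (e i) ≠ toW 0 := fun h0 => hne (toW.injective h0)
        rcases hx' with (rfl | ⟨n, hn⟩) | (rfl | ⟨n, hn⟩)
        · exact hne' heq.symm
        · simp only at hn
          split_ifs at hn with hni
          · exact hne' (heq.symm.trans hn.symm)
          · have h4 : e n = e i := toW.injective (hn.trans heq)
            exact hni (h.injective h4)
        · exact hne' heq.symm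
        · have h4 : (2⁻¹ : ℝ) • e n = e i := toW.injective (hn.trans heq)
          have h5 := norm_half (e n)
          rw [h4, h.norm, h.norm] at h5
          norm_num at h5
    rw [h3]
    exact h2.isClosed.preimage continuous_subtype_val

open Classical in
/-- The map sending `e i` to `p` and all other points to `q`. -/
noncomputable def jump (h : Good e) (i : ℕ) (p q : K e)
    (hpq : ndist (p : Weak E) q ≤ 1 / 2) : NE (K e) :=
  ⟨fun x => if (x : Weak E) = toW (e i) then p else q,
    (continuous_if (by
      intro a ha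
      rw [(h.isClopen i).frontier_eq] at ha
      exact ha.elim) continuous_const.continuousOn continuous_const.continuousOn), by
    have hpq' : ndist (q : Weak E) p ≤ 1 / 2 := by
      rwa [ndist, norm_sub_rev]
    intro x y
    by_cases hx : (x : Weak E) = toW (e i)
    · by_cases hy : (y : Weak E) = toW (e i)
      · simp [hx, hy, ndist]
      · simp only [hx, hy, if_true, if_false]
        exact hpq.trans (h.dist_ge i y y.2 hy)
    · by_cases hy : (y : Weak E) = toW (e i)
      · simp only [hx, hy, if_true, if_false]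
        refine hpq'.trans ?_
        have := h.dist_ge i x x.2 hx
        rwa [ndist, norm_sub_rev] at this
      · simp only [hx, hy, if_false]
        simp [ndist]⟩

lemma jump_self (h : Good e) (i : ℕ) (p q : K e)
    (hpq : ndist (p : Weak E) q ≤ 1 / 2) :
    (jump h i p q hpq).1 ⟨toW (e i), e_mem i⟩ = p := if_pos rfl

lemma jump_of_ne (h : Good e) (i : ℕ) (p q : K e)
    (hpq : ndist (p : Weak E) q ≤ 1 / 2) (x : K e)
    (hx : (x : Weak E) ≠ toW (e i)) :
    (jump h i p q hpq).1 x = q := if_neg hx

/-- `jump h i p q → cst q` pointwise as `i → ∞`. -/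
lemma tendsto_jump (h : Good e) (p q : K e)
    (hpq : ndist (p : Weak E) q ≤ 1 / 2) :
    Tendsto (fun i => jump h i p q hpq) atTop (𝓝 (cst q)) := by
  rw [NE.tendsto_iff]
  intro x
  have hev : ∀ᶠ i in atTop, (x : Weak E) ≠ toW (e i) := by
    by_cases hx : ∃ j, (x : Weak E) = toW (e j)
    · obtain ⟨j, hj⟩ := hx
      filter_upwards [eventually_gt_atTop j] with i hi heq
      have := h.injective (toW.injective (hj.symm.trans heq))
      omega
    · push Not at hx
      exact Eventually.of_forall hx
  refine tendsto_const_nhds.congr' ?_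
  filter_upwards [hev] with i hi
  exact (jump_of_ne h i p q hpq x hi).symm

/-- A function in `LUC` takes the same value at the constant maps of two points of `K` at distance
at most `1/2`. -/
lemma LUC_eq (h : Good e) {f : NE (K e) →ᵇ ℂ} (hf : f ∈ LUC (NE (K e))) (p q : K e)
    (hpq : ndist (p : Weak E) q ≤ 1 / 2) : f (cst p) = f (cst q) := by
  have h1 : Tendsto (fun i => ltrans (jump h i p q hpq) f) atTop (𝓝 (ltrans (cst q) f)) :=
    (Continuous.tendsto (mem_LUC.1 hf) (cst q)).comp (tendsto_jump h p q hpq)
  have h2 : Tendsto (fun i => ‖ltrans (jump h i p q hpq) f - ltrans (cst q) f‖) atTop (𝓝 0) := by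
    simpa using (h1.sub_const (ltrans (cst q) f)).norm
  have h3 : ∀ i, ‖f (cst p) - f (cst q)‖ ≤ ‖ltrans (jump h i p q hpq) f - ltrans (cst q) f‖ := by
    intro i
    set t : NE (K e) := cst ⟨toW (e i), e_mem i⟩ with ht
    have e1 : jump h i p q hpq * t = cst p := by
      apply Subtype.ext
      funext x
      exact jump_self h i p q hpq
    have e2 : cst q * t = cst q := by
      apply Subtype.ext
      funext x
      rfl
    have := (ltrans (jump h i p q hpq) f - ltrans (cst q) f).norm_coe_le_norm t
    rw [BoundedContinuousFunction.sub_apply, ltrans_apply, ltrans_apply, e1, e2] at this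
    exact this
  have h4 : ‖f (cst p) - f (cst q)‖ ≤ 0 := ge_of_tendsto' h2 h3
  exact sub_eq_zero.1 (norm_le_zero_iff.1 h4)

lemma LUC_const (h : Good e) {f : NE (K e) →ᵇ ℂ} (hf : f ∈ LUC (NE (K e))) (p : K e) :
    f (cst p) = f (cst ⟨toW 0, zero_mem⟩) := by
  have hhalf : ∀ n, f (cst ⟨toW ((2⁻¹ : ℝ) • e n), half_mem n⟩) =
      f (cst ⟨toW 0, zero_mem⟩) := by
    intro n
    apply LUC_eq h hf
    simp only [ndist, Equiv.symm_apply_apply, sub_zero]
    rw [norm_half, h.norm]
  obtain ⟨p, (rfl | ⟨n, rfl⟩) | (rfl | ⟨n, rfl⟩)⟩ := p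
  · rfl
  · rw [← hhalf n]
    apply LUC_eq h hf
    simp only [ndist, Equiv.symm_apply_apply]
    have : e n - (2⁻¹ : ℝ) • e n = (2⁻¹ : ℝ) • e n := by
      have h2 : (2 : ℝ) ≠ 0 := two_ne_zero
      rw [sub_eq_iff_eq_add, ← add_smul]
      have : (2⁻¹ : ℝ) + 2⁻¹ = 1 := by field_simp; norm_num
      rw [this, one_smul]
    rw [this, norm_half, h.norm]
  · rfl
  · exact hhalf n

/-- The semigroup of all weakly continuous nonexpansive self-maps of `K` is extremely left
amenable: evaluation at a constant map is a multiplicative left invariant mean on `LUC`. -/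
lemma ela (h : Good e) : ExtremelyLeftAmenable (NE (K e)) := by
  refine ⟨fun f => (f : NE (K e) →ᵇ ℂ) (cst ⟨toW 0, zero_mem⟩), fun _ _ => rfl, fun _ _ => rfl, rfl,
    fun f => (f : NE (K e) →ᵇ ℂ).norm_coe_le_norm _, fun _ _ => rfl, ?_⟩
  intro s f
  exact LUC_const h f.2 (s.1 ⟨toW 0, zero_mem⟩)

theorem fails_of_good (h : Good e) : ¬ FixedPointStatement E := by
  intro hE
  have hT : IsRepresentation (K e) (fun (s : NE (K e)) x => s.1 x) :=
    ⟨fun _ _ _ => rfl, fun s => s.2.2, fun s => s.2.1, fun x => NE.continuous_eval x⟩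
  obtain ⟨z, hz⟩ := hE (NE (K e)) (ela h) (K e) (fun s x => s.1 x) h.isCompact.isClosed hT
    ⟨⟨toW 0, zero_mem⟩, h.isCompact.of_isClosed_subset isClosed_closure
      (closure_minimal (by rintro _ ⟨s, rfl⟩; exact (s.1 _).2) h.isCompact.isClosed)⟩
  have h1 := hz (cst ⟨toW 0, zero_mem⟩)
  have h2 := hz (cst ⟨toW (e 0), e_mem 0⟩)
  have h3 : (⟨toW 0, zero_mem⟩ : K e) = ⟨toW (e 0), e_mem 0⟩ := by
    exact (show (⟨toW 0, zero_mem⟩ : K e) = z from h1).trans (show z = _ from h2.symm)
  have h4 : (toW 0 : Weak E) = toW (e 0) := congrArg Subtype.val h3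
  have h5 : e 0 = 0 := (toW.injective h4).symm
  have h6 := h.norm 0
  rw [h5, norm_zero] at h6
  norm_num at h6

/-- Extraction: a weakly null sequence which is not norm null yields a `Good` sequence. -/
lemma exists_good (x : ℕ → E) (hx : Tendsto (fun n => toW (x n)) atTop (𝓝 (toW 0)))
    (hx' : ¬ Tendsto x atTop (𝓝 0)) : ∃ e : ℕ → E, Good e := by
  rw [weakly_tendsto_iff] at hx
  rw [Metric.tendsto_atTop] at hx'
  push Not at hx'
  obtain ⟨δ, hδ, hfreq⟩ := hx'
  simp only [dist_zero_right] at hfreq
  -- normalised points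
  set y : ℕ → E := fun n => ‖x n‖⁻¹ • x n with hy
  have hynorm : ∀ n, δ ≤ ‖x n‖ → ‖y n‖ = 1 := by
    intro n hn
    have : 0 < ‖x n‖ := hδ.trans_le hn
    rw [hy, norm_smul, Real.norm_eq_abs, abs_of_nonneg (by positivity)]
    field_simp
  have hstep : ∀ s : Finset ℕ, (∀ m ∈ s, δ ≤ ‖x m‖) →
      ∃ n, δ ≤ ‖x n‖ ∧ ∀ m ∈ s, m < n ∧ 1 / 2 ≤ ‖y m - y n‖ := by
    intro s hs
    have hev : ∀ᶠ n in atTop, ∀ m ∈ s, m < n ∧ (δ ≤ ‖x n‖ → 1 / 2 ≤ ‖y m - y n‖) := by
      rw [Filter.eventually_all_finset]
      intro m hm
      obtain ⟨φ, hφ1, hφ2⟩ := exists_dual_vector'' ℝ (y m)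
      rw [hynorm m (hs m hm)] at hφ2
      have h1 := (hx φ).norm
      rw [norm_zero] at h1
      have h2 := h1.eventually (gt_mem_nhds (show (0 : ℝ) < δ / 2 by positivity))
      filter_upwards [h2, eventually_gt_atTop m] with n hn hmn
      refine ⟨hmn, fun hδn => ?_⟩
      have h3 : ‖φ (y n)‖ ≤ 1 / 2 := by
        rw [hy, map_smul, norm_smul, Real.norm_eq_abs, abs_of_nonneg (by positivity)]
        have hpos : 0 < ‖x n‖ := hδ.trans_le hδn
        rw [inv_mul_le_iff₀ hpos]
        linarith
      have h4 : ‖φ (y m - y n)‖ ≤ ‖y m - y n‖ := by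
        refine (φ.le_opNorm _).trans ?_
        nlinarith [norm_nonneg (y m - y n)]
      have h5 : ‖φ (y m)‖ - ‖φ (y n)‖ ≤ ‖φ (y m - y n)‖ := by
        rw [map_sub]; exact norm_sub_norm_le _ _
      have h6 : ‖φ (y m)‖ = 1 := by rw [hφ2]; simp
      linarith
    obtain ⟨N, hN⟩ := eventually_atTop.1 hev
    obtain ⟨n, hn, hδn⟩ := hfreq N
    exact ⟨n, hδn, fun m hm => ⟨(hN n hn m hm).1, (hN n hn m hm).2 hδn⟩⟩
  obtain ⟨f, hf1, hf2⟩ := exists_seq_of_forall_finset_exists (fun n => δ ≤ ‖x n‖)
    (fun m n => m < n ∧ 1 / 2 ≤ ‖y m - y n‖) hstep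
  have hmono : StrictMono f := strictMono_nat_of_lt_succ fun n => (hf2 n (n + 1) (by omega)).1
  refine ⟨y ∘ f, ?_, fun n => hynorm _ (hf1 n), ?_⟩
  · rw [weakly_tendsto_iff]
    intro φ
    have h1 : Tendsto (fun n => φ (x (f n))) atTop (𝓝 0) := (hx φ).comp hmono.tendsto_atTop
    have h2 : Tendsto (fun n => δ⁻¹ * ‖φ (x (f n))‖) atTop (𝓝 0) := by
      simpa using h1.norm.const_mul δ⁻¹
    refine squeeze_zero_norm (fun n => ?_) h2
    have hpos : 0 < ‖x (f n)‖ := hδ.trans_le (hf1 n)
    simp only [Function.comp, hy]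
    rw [map_smul, norm_smul, Real.norm_eq_abs, abs_of_nonneg (by positivity)]
    gcongr
    exact hf1 n
  · intro i j hij
    rcases lt_or_gt_of_ne hij with h | h
    · exact (hf2 i j h).2
    · have := (hf2 j i h).2
      rwa [norm_sub_rev] at this

end Construction

/-- The standard unit vectors of `ℓ²` are weakly null. -/
lemma single_weakly_null :
    Tendsto (fun n : ℕ => toW (lp.single 2 n (1 : ℝ) : lp (fun _ : ℕ => ℝ) 2)) atTop
      (𝓝 (toW 0)) := by
  rw [weakly_tendsto_iff]
  intro φ
  obtain ⟨y, rfl⟩ := (InnerProductSpace.toDual ℝ (lp (fun _ : ℕ => ℝ) 2)).surjective φ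
  have h : ∀ n : ℕ, InnerProductSpace.toDual ℝ (lp (fun _ : ℕ => ℝ) 2) y (lp.single 2 n (1 : ℝ)) =
      inner ℝ (y n) (1 : ℝ) := by
    intro n
    rw [InnerProductSpace.toDual_apply_apply, lp.inner_single_right]
  simp only [h]
  have h2 : Summable fun n => ‖y n‖ ^ (2 : ℝ) := by
    have := lp.memℓp y
    exact this.summable (by norm_num)
  have h3 : Tendsto (fun n => ‖y n‖) atTop (𝓝 0) := by
    have h4 := h2.tendsto_atTop_zero
    have h5 := (Real.continuous_sqrt.tendsto 0).comp h4
    simpa [Function.comp_def, Real.sqrt_sq_eq_abs] using h5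
  refine squeeze_zero_norm (fun n => ?_) h3
  refine (norm_inner_le_norm _ _).trans ?_
  simp

/-- The Hilbert space `ℓ²`. -/
abbrev Ell2 : Type := lp (fun _ : ℕ => ℝ) 2

/-- **The question has a negative answer.** The fixed point property of the question fails in every
Banach space `E` which contains a weakly null sequence that is not norm null (that is, in every
Banach space without the Schur property); in particular it fails in the Hilbert space `ℓ²`. -/
theorem result :
    (∀ (E : Type u) [NormedAddCommGroup E] [NormedSpace ℝ E] [CompleteSpace E] (x : ℕ → E),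
      Tendsto (fun n => toW (x n)) atTop (𝓝 (toW 0)) → ¬ Tendsto x atTop (𝓝 0) →
      ¬ FixedPointStatement E) ∧
    ¬ FixedPointStatement Ell2 := by
  refine ⟨fun E _ _ _ x hx hx' => ?_, ?_⟩
  · obtain ⟨e, he⟩ := exists_good x hx hx'
    exact fails_of_good he
  · obtain ⟨e, he⟩ := exists_good (fun n : ℕ => (lp.single 2 n (1 : ℝ) : Ell2))
      single_weakly_null (by
        intro h
        have h1 := h.norm
        have h2 : ∀ n : ℕ, ‖(lp.single 2 n (1 : ℝ) : Ell2)‖ = 1 := by
          intro n
          rw [lp.norm_single (by norm_num), norm_one]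
        simp only [h2, norm_zero] at h1
        exact one_ne_zero (tendsto_nhds_unique h1 tendsto_const_nhds).symm)
    exact fails_of_good he

end Pool.Agent.Results.MP_155d71_an.SeparateActionFails
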